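import Pool.Agent.Lib.MP_3240be_co.SSL8.Bpc

/-!
# MP_3240be_co, row R9: (EX) for rigid graphs

`exc_rig`: if every embedding of `D` into a tree graph of a system for a subgraph of `H` lies in one
body (the field `e1` of `Rig`), and `X₀` meets all copies of `D` in `H`, there is a graph `B` with
the property (EX).
-/

set_option autoImplicit false

namespace MP3240SSL

open Finset Function MP3240T MP3240W MP3240CO
open MP3240K (IsE)

/-- Every embedding of `D` into a tree graph of a system for `P` lies in one body. -/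
def Rig1 {X Y : Type} (P : SimpleGraph Y) (D : SimpleGraph X) : Prop :=
  ∀ (Z : Sys P) (S : Set Z.M) (Γ : Z.V → Z.V → Prop) (A : Set Z.V), TD Z.δ P S Γ A →
    ∀ F : X → Z.V, Injective F → (∀ u, F u ∈ A) → (∀ u v, D.Adj u v → Γ (F u) (F v)) →
      ∃ m ∈ S, ∀ u, F u ∈ Set.range (Z.δ m)

/-- A tree graph is a subgraph of the bodies and bipartite graphs; an edge of the graph of the
system between two vertices of a body is an edge of this body. -/
theorem Sys.bod_of {Y : Type} {P : SimpleGraph Y} (Z : Sys P) {x y : Z.V} {m : Z.M}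
    (h : Z.Phi.Adj x y) (hx : x ∈ Set.range (Z.δ m)) (hy : y ∈ Set.range (Z.δ m)) :
    Bod Z.δ P m x y := by
  obtain ⟨m', t, t', h1, h2, h3⟩ := h
  obtain ⟨s, hs⟩ := hx
  obtain ⟨s', hs'⟩ := hy
  have e1 : s = t := by
    have := congrArg Z.part (hs.trans h1)
    rwa [Z.hp, Z.hp] at this
  have e2 : s' = t' := by
    have := congrArg Z.part (hs'.trans h2)
    rwa [Z.hp, Z.hp] at this
  subst e1
  subst e2
  exact ⟨s, s', hs.symm, hs'.symm, h3⟩

/-- A sparse system without `D`. -/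
theorem Ssl.free_rig {X Y : Type} [Finite X] [Nonempty X] [Finite Y] (hS : ∀ g, Ssl g)
    (T : SimpleGraph Y) (D : SimpleGraph X) (hX : ∀ x, ∃ y, D.Adj x y) (hD : Rig1 T D)
    (hT : ¬ Emb D T) (n : ℕ) :
    ∃ Z : Sys T, ¬ Emb D Z.Phi ∧ Z.Rob n Set.univ := by
  classical
  have := Fintype.ofFinite X
  obtain ⟨Z, h1, h2⟩ := hS (Fintype.card (X × X)) Y T n
  refine ⟨Z, ?_, h2⟩
  rintro ⟨f, hf, hA⟩
  have hm : ∀ q : X × X, ∃ S : Finset Z.M, S.card ≤ 1 ∧
      (D.Adj q.1 q.2 → ∃ m ∈ S, Bod Z.δ T m (f q.1) (f q.2)) := by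
    intro q
    by_cases hq : D.Adj q.1 q.2
    · obtain ⟨m, hm⟩ := hA _ _ hq
      exact ⟨{m}, by simp, fun _ => ⟨m, by simp, hm⟩⟩
    · exact ⟨∅, by simp, fun h => absurd h hq⟩
  choose S hS1 hS2 using hm
  obtain ⟨S', Γ, A, k1, k2⟩ := h1 (univ.biUnion S) (by
    refine card_biUnion_le.trans ?_
    calc ∑ q : X × X, (S q).card ≤ ∑ _q : X × X, 1 := sum_le_sum fun q _ => hS1 q
      _ = Fintype.card (X × X) := by simp)
  have hΓ : ∀ x y, D.Adj x y → Γ (f x) (f y) := by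
    intro x y hxy
    obtain ⟨m, hm, hb⟩ := hS2 (x, y) hxy
    exact k1.body m (k2 m (mem_biUnion.2 ⟨_, mem_univ _, hm⟩)) _ _ hb
  obtain ⟨m, _, hm⟩ := hD Z S' Γ A k1 f hf (fun x => by
    obtain ⟨y, hy⟩ := hX x
    exact (k1.mem _ _ (hΓ x y hy)).1) hΓ
  apply hT
  choose t ht using hm
  refine ⟨t, fun x y h => hf (by rw [← ht x, ← ht y, h]), fun x y hxy => ?_⟩
  obtain ⟨s, s', h3, h4, h5⟩ := Z.bod_of (hA x y hxy) ⟨t x, ht x⟩ ⟨t y, ht y⟩
  have e1 : t x = s := Z.inj m ((ht x).trans h3)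
  have e2 : t y = s' := Z.inj m ((ht y).trans h4)
  rw [e1, e2]
  exact h5

/-- Row R9: (EX) for a graph `D` with the property `e1` which is not in `H - X₀`. -/
theorem exc_rig (hS : ∀ g, Ssl g) {n d r : ℕ} (hr hb : ℕ) (H : SimpleGraph (Fin n))
    (D : SimpleGraph (Fin d)) (X₀ : Finset (Fin n)) (hn : 0 < n) (hr1 : 1 ≤ r)
    (hD : D.Connected) (hDr : ¬ D.Colorable r) (hm : Meets H D X₀)
    (he : Rig1 (H.induce {x | x ∉ X₀}) D) :
    ∃ (b₀ : ℕ) (B : SimpleGraph (Fin b₀)), ExB H r hr hb D X₀ B := by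
  classical
  have hne := hD.nonempty
  have : Finite ({x | x ∉ X₀} : Set (Fin n)) := Subtype.finite
  have hT : ¬ Emb D (H.induce {x | x ∉ X₀}) := by
    rintro ⟨f, hf, hA⟩
    obtain ⟨i, hi⟩ := hm (fun i => (f i).1) ⟨fun i j h => hf (Subtype.ext h),
      fun i j h => hA i j h⟩
    exact (f i).2 hi
  have hX : ∀ x, ∃ y, D.Adj x y := by
    intro x
    by_contra hcon
    push Not at hcon
    apply hDr
    refine ⟨fun _ => ⟨0, by omega⟩, fun {a b} hab => ?_⟩
    exfalso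
    have hax : a ≠ x := fun h => hcon b (h ▸ hab)
    obtain ⟨w⟩ := hD.preconnected x a
    cases w with
    | nil => exact hax rfl
    | cons h _ => exact hcon _ h
  obtain ⟨Z, h1, h2⟩ := Ssl.free_rig hS (H.induce {x | x ∉ X₀}) D hX he hT n
  have := Z.fV
  have := Fintype.ofFinite Z.V
  let e : Z.V ≃ Fin (Fintype.card Z.V) := Fintype.equivFin Z.V
  refine exb_sum H D X₀ hn hr1 hD hDr (Z.Phi.comap e.symm) ?_ fun c hc b => ?_
  · rintro ⟨f, hf, hA⟩
    exact h1 ⟨fun x => e.symm (f x), fun x y h => hf (e.symm.injective h), fun x y h => hA x y h⟩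
  · rcases h2 (fun x y => c (e x) (e y)) (fun x y => hc _ _) b with ⟨f, g, hf, hg, h⟩ | ⟨m, hm'⟩
    · left
      refine ⟨fun i => e (f i), fun i => e (g i), fun i j h => hf (e.injective h),
        fun i j h => hg (e.injective h), fun i j => ⟨?_, (h i j).2⟩⟩
      change Z.Phi.Adj (e.symm (e (f i))) (e.symm (e (g j)))
      rw [e.symm_apply_apply, e.symm_apply_apply]
      exact (h i j).1
    · right
      left
      refine ⟨fun y => e (Z.δ m y), fun y y' h => Z.inj m (e.injective h), fun y y' hy => ?_⟩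
      refine ⟨?_, hm' y y' hy (Set.mem_univ _), hm' y' y hy.symm (Set.mem_univ _)⟩
      change Z.Phi.Adj (e.symm (e _)) (e.symm (e _))
      rw [e.symm_apply_apply, e.symm_apply_apply]
      exact ⟨m, y, y', rfl, rfl, hy⟩

end MP3240SSL
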